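import Mathlib
import Pool.Agent.Helper495.SNSum
import Pool.Agent.H692.Coup
import Pool.Agent.H692.FN

set_option autoImplicit false

open Finset
open scoped Classical

namespace Pool.Agent.Results.MP_e5893c_co.AAllParts

open Pool.Agent.H692.Coup

/-- **Result** (all partial results on Q1 in one statement).
A. For every Eulerian oriented graph `E`: `2 ∑ |N₂⁺(v)| ≥ |E| + #{v : d v > 0}`, and
`∑ |N₂⁺(v)| ≥ |E|` if there is no transitive triangle.
B. For every `d`-regular oriented graph, `d ≥ 1`: `9 ∑ |N₂⁺(v)| ≥ 5 |E| + 4 |V|`, and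
`∑ |N₂⁺(v)| ≥ |E|` if no pair at distance at least three has both a common in-neighbour and a
common out-neighbour.
C. For every oriented graph the coupling inequality, and `∑ |N₂⁺(v)| ≥ |E|` if there are two
permutations along loops and arcs without conflict. -/
theorem result :
    (∀ (V : Type) [Fintype V] (E : V → V → Prop),
      Pool.Agent.Helper495.SN.EulerianOriented E →
      (∑ v, (Pool.Agent.Helper495.SN.Out E v).card + Pool.Agent.Helper495.SN.nonIso E ≤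
        2 * ∑ v, (Pool.Agent.Helper495.SN.N2 E v).card) ∧
      ((∀ u v w, E u v → E v w → ¬ E u w) →
        ∑ v, (Pool.Agent.Helper495.SN.Out E v).card ≤
          ∑ v, (Pool.Agent.Helper495.SN.N2 E v).card)) ∧
    (∀ (V : Type) [Fintype V] (G : Digraph V), (∀ v, ¬ G.Adj v v) →
      (∀ u v, G.Adj u v → ¬ G.Adj v u) →
      (∀ d : ℕ, 0 < d → (∀ v, {w | G.Adj v w}.ncard = d) → (∀ v, {w | G.Adj w v}.ncard = d) →
        5 * ∑ v, {w | G.Adj v w}.ncard + 4 * Fintype.card V ≤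
          9 * ∑ v, {w | w ≠ v ∧ ¬ G.Adj v w ∧ ∃ u, G.Adj v u ∧ G.Adj u w}.ncard) ∧
      (∀ d : ℕ, (∀ v, {w | G.Adj v w}.ncard = d) → (∀ v, {w | G.Adj w v}.ncard = d) →
        (∀ v w, Far G v w → (∃ a, G.Adj a v ∧ G.Adj a w) → ¬ ∃ b, G.Adj v b ∧ G.Adj w b) →
        ∑ v, {w | G.Adj v w}.ncard ≤
          ∑ v, {w | w ≠ v ∧ ¬ G.Adj v w ∧ ∃ u, G.Adj v u ∧ G.Adj u w}.ncard) ∧
      (∀ q p : V → V → ℝ, DSOn G q → DSOn G p →
        ((∑ v, {w | G.Adj v w}.ncard : ℕ) : ℝ) ≤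
          ((∑ v, {w | w ≠ v ∧ ¬ G.Adj v w ∧ ∃ u, G.Adj v u ∧ G.Adj u w}.ncard : ℕ) : ℝ)
            + (conflict G q p + conflict G p q) / 2) ∧
      (∀ f g : Equiv.Perm V, (∀ v, f v = v ∨ G.Adj v (f v)) → (∀ v, g v = v ∨ G.Adj v (g v)) →
        (∀ v w, Far G v w → ¬ (G.Adj (g.symm w) v ∧ G.Adj w (f v)) ∧
          ¬ (G.Adj (f.symm w) v ∧ G.Adj w (g v))) →
        ∑ v, {w | G.Adj v w}.ncard ≤
          ∑ v, {w | w ≠ v ∧ ¬ G.Adj v w ∧ ∃ u, G.Adj v u ∧ G.Adj u w}.ncard)) :=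
  ⟨fun V _ E h => ⟨Pool.Agent.Helper495.SN.half E h,
      fun h0 => Pool.Agent.Helper495.SN.full_of_noTransitive E h h0⟩,
    fun V _ G hl ha => ⟨fun d hd ho hi => Pool.Agent.H692.FN.result V G hl ha d hd ho hi,
      fun d ho hi hfree => regular_free G hl ha d ho hi hfree,
      fun q p hq hp => main_card G hl ha q p hq hp,
      fun f g hf hg hfg => perm_case G hl ha f g hf hg hfg⟩⟩

end Pool.Agent.Results.MP_e5893c_co.AAllParts
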