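import Mathlib
import Pool.Agent.Helper495.SNSum

/-!
# MP_e5893c_co: the second neighbourhood sum in Eulerian oriented graphs (partial)

`Pool.Agent.Helper495.SN` contains the definitions and the proofs: `Out`, `In`, `N2`
(vertices at distance exactly two), `EulerianOriented`, common out/in-neighbour counts
`cOut`, `cIn`, and balanced arc weightings `BalancedWeight`.
-/

open Finset

namespace Pool.Agent.Results.MP_e5893c_co.HalfBound

open Pool.Agent.Helper495.SN

/-- **Result.** For an Eulerian oriented graph `E` on a finite set `V` (`d v` the degree):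

1. `2 ∑ |N₂⁺(v)| ≥ |E| + #{v : d v > 0}`, so the inequality of Q1 holds with the constant `1/2`;
2. for every balanced arc weighting `x`,
   `∑ |N₂⁺(v)| ≥ |E| - (1/2) ∑ x(u,v) (c⁺(u,v)/d(u) + c⁻(u,v)/d(v))`;
3. for every doubly stochastic `x` supported on the arcs,
   `∑ |N₂⁺(v)| ≥ |E| - ∑ x(u,v) c⁺(u,v)`;
4. the full inequality of Q1 if some balanced arc weighting lives on arcs without common out- and
   in-neighbours;
5. the full inequality of Q1 if there is no transitive triangle. -/
theorem result (V : Type) [Fintype V] (E : V → V → Prop) (h : EulerianOriented E) :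
    (∑ v, (Out E v).card + nonIso E ≤ 2 * ∑ v, (N2 E v).card) ∧
    (∀ x : V → V → ℝ, BalancedWeight E x →
      (∑ v, ((Out E v).card : ℝ)) -
        (1 / 2) * ∑ u, ∑ v, x u v * ((cOut E u v : ℝ) / (Out E u).card +
          (cIn E u v : ℝ) / (Out E v).card) ≤ ∑ v, ((N2 E v).card : ℝ)) ∧
    (∀ x : V → V → ℝ, (∀ u v, 0 ≤ x u v) → (∀ u v, ¬ E u v → x u v = 0) →
      (∀ u, ∑ v, x u v = 1) → (∀ v, ∑ u, x u v = 1) →
      (∑ v, ((Out E v).card : ℝ)) - ∑ u, ∑ v, x u v * cOut E u v ≤
        ∑ v, ((N2 E v).card : ℝ)) ∧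
    (∀ x : V → V → ℝ, BalancedWeight E x →
      (∀ u v, x u v ≠ 0 → cOut E u v = 0 ∧ cIn E u v = 0) →
      ∑ v, (Out E v).card ≤ ∑ v, (N2 E v).card) ∧
    ((∀ u v w, E u v → E v w → ¬ E u w) → ∑ v, (Out E v).card ≤ ∑ v, (N2 E v).card) :=
  ⟨half E h, fun x hx => weighted E h x hx,
    fun x h1 h2 h3 h4 => one_sided E h x h1 h2 h3 h4,
    fun x hx h0 => full_of_weight E h x hx h0, fun h0 => full_of_noTransitive E h h0⟩

end Pool.Agent.Results.MP_e5893c_co.HalfBound
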